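import Mathlib
import Pool.Agent.H57R3.FC.B
import Pool.Agent.H341R2.WeilSharp

set_option autoImplicit false

open Finset Filter Topology

namespace Pool.Agent.H406R3.FC4

open Pool.Agent.H57R3.FC

/-- the primes `100 < p ≤ F`, `p = 7 mod 12` -/
def PG (F : ℕ) : Finset ℕ := (Icc 1 F).filter (fun p => p.Prime ∧ p % 12 = 7 ∧ 100 < p)

lemma log_hundred : Real.log 100 ≤ 5 := by
  rw [Real.log_le_iff_le_exp (by norm_num)]
  have h1 : Real.exp 5 = (Real.exp 1) ^ 5 := by
    rw [← Real.exp_nat_mul]; norm_num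
  have h2 : (2.7 : ℝ) ≤ Real.exp 1 := by
    have := Real.exp_one_gt_d9
    linarith
  rw [h1]
  calc (100 : ℝ) ≤ 2.7 ^ 5 := by norm_num
    _ ≤ _ := pow_le_pow_left₀ (by norm_num) h2 5

lemma prime_count12 :
    ∃ F0 : ℕ, 2 ≤ F0 ∧ ∀ F : ℕ, F0 ≤ F → (F : ℝ) / 32 ≤ (PG F).card * Real.log F := by
  have hu : IsUnit ((7 : ℕ) : ZMod 12) := by decide
  have h := Pool.Agent.Helper923.PNT.pnt_residueClass hu
  have ht : (Nat.totient 12 : ℝ)⁻¹ = 1 / 4 := by
    have : Nat.totient 12 = 4 := by decide
    rw [this]; norm_num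
  rw [ht] at h
  have h1 : ∀ᶠ x : ℝ in atTop, 1 / 16 < (∑ k ∈ Icc 1 ⌊x⌋₊,
      ArithmeticFunction.vonMangoldt.residueClass ((7 : ℕ) : ZMod 12) k) / x :=
    h.eventually (lt_mem_nhds (by norm_num))
  obtain ⟨C, hC⟩ := Chebyshev.psi_sub_theta_le_mul_sqrt
  obtain ⟨x0, hx0⟩ := eventually_atTop.1 h1
  refine ⟨⌈x0⌉₊ + ⌈(64 * (|C| + 500)) ^ 2⌉₊ + 2, by omega, fun F hF => ?_⟩
  have hFx : x0 ≤ F := by
    have : ⌈x0⌉₊ ≤ F := by omega
    exact (Nat.le_ceil x0).trans (by exact_mod_cast this)
  have hFC : (64 * (|C| + 500)) ^ 2 ≤ (F : ℝ) := by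
    have : ⌈(64 * (|C| + 500)) ^ 2⌉₊ ≤ F := by omega
    exact (Nat.le_ceil _).trans (by exact_mod_cast this)
  have hF2 : 2 ≤ F := by omega
  have hF0 : (0 : ℝ) < F := by
    have : 0 < F := by omega
    exact_mod_cast this
  have h2 := hx0 F hFx
  rw [Nat.floor_natCast, lt_div_iff₀ hF0] at h2
  have hlog100 := log_hundred
  have hlog100' : 0 ≤ Real.log 100 := Real.log_nonneg (by norm_num)
  have h3 : ∑ k ∈ Icc 1 F, ArithmeticFunction.vonMangoldt.residueClass ((7 : ℕ) : ZMod 12) k ≤
      (PG F).card * Real.log F + (Chebyshev.psi F - Chebyshev.theta F) + 500 := by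
    rw [Chebyshev.psi_sub_theta_eq_sum_not_prime, Nat.floor_natCast]
    have e1 : ((PG F).card : ℝ) * Real.log F =
        ∑ k ∈ Icc 1 F, if k.Prime ∧ k % 12 = 7 ∧ 100 < k then Real.log F else 0 := by
      rw [← sum_filter, sum_const, nsmul_eq_mul]
      rfl
    have e2 : ∑ n ∈ Ioc 0 F with ¬ n.Prime, ArithmeticFunction.vonMangoldt n =
        ∑ k ∈ Icc 1 F, if ¬ k.Prime then ArithmeticFunction.vonMangoldt k else 0 := by
      rw [sum_filter]
      rfl
    have e3 : ∑ k ∈ Icc 1 F, (if k ≤ 100 then Real.log 100 else 0) ≤ (500 : ℝ) := by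
      rw [← sum_filter, sum_const, nsmul_eq_mul]
      have hc : ((Icc 1 F).filter (fun k => k ≤ 100)).card ≤ 100 := by
        calc ((Icc 1 F).filter (fun k => k ≤ 100)).card ≤ (Icc 1 100).card := by
              apply card_le_card
              intro k hk
              rw [mem_filter, mem_Icc] at hk
              exact mem_Icc.2 ⟨hk.1.1, hk.2⟩
          _ = 100 := by simp
      have hc' : ((((Icc 1 F).filter (fun k => k ≤ 100)).card : ℕ) : ℝ) ≤ 100 := by exact_mod_cast hc
      calc ((((Icc 1 F).filter (fun k => k ≤ 100)).card : ℕ) : ℝ) * Real.log 100 ≤ 100 * 5 :=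
            mul_le_mul hc' hlog100 hlog100' (by norm_num)
        _ = 500 := by norm_num
    rw [e1, e2]
    refine le_trans ?_ (add_le_add_right e3 _)
    rw [← sum_add_distrib, ← sum_add_distrib]
    apply sum_le_sum
    intro k hk
    rw [mem_Icc] at hk
    have hΛ : 0 ≤ ArithmeticFunction.vonMangoldt k := ArithmeticFunction.vonMangoldt_nonneg
    have hlogF : 0 ≤ Real.log F := Real.log_nonneg (by exact_mod_cast (by omega : 1 ≤ F))
    by_cases hp : k.Prime
    · by_cases h15 : ((k : ZMod 12) = ((7 : ℕ) : ZMod 12))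
      · have h15' : k % 12 = 7 := by
          rw [ZMod.natCast_eq_natCast_iff'] at h15
          simpa using h15
        by_cases hk2 : k ≤ 100
        · have : ArithmeticFunction.vonMangoldt.residueClass ((7 : ℕ) : ZMod 12) k ≤ Real.log 100 := by
            refine (ArithmeticFunction.vonMangoldt.residueClass_le _ _).trans ?_
            rw [ArithmeticFunction.vonMangoldt_apply_prime hp]
            exact Real.log_le_log (by exact_mod_cast hp.pos) (by exact_mod_cast hk2)
          rw [if_pos hk2]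
          split_ifs <;> linarith
        · have hk3 : 100 < k := by omega
          rw [if_pos ⟨hp, h15', hk3⟩, if_neg (not_not.2 hp), if_neg hk2]
          refine (ArithmeticFunction.vonMangoldt.residueClass_le _ _).trans ?_
          rw [ArithmeticFunction.vonMangoldt_apply_prime hp]
          have : Real.log k ≤ Real.log F := Real.log_le_log (by exact_mod_cast hp.pos) (by exact_mod_cast hk.2)
          linarith
      · have : ArithmeticFunction.vonMangoldt.residueClass ((7 : ℕ) : ZMod 12) k = 0 := by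
          apply Set.indicator_of_notMem
          exact h15
        rw [this]
        split_ifs <;> positivity
    · rw [if_neg (fun h => hp h.1), if_pos hp]
      have := ArithmeticFunction.vonMangoldt.residueClass_le ((7 : ℕ) : ZMod 12) k
      split_ifs <;> linarith
  have h4 := hC F
  have h5 : |C| + 500 ≤ Real.sqrt F / 64 := by
    rw [le_div_iff₀ (by norm_num : (0:ℝ) < 64)]
    apply Real.le_sqrt_of_sq_le
    have e : ((|C| + 500) * 64) ^ 2 = (64 * (|C| + 500)) ^ 2 := by ring
    rw [e]
    exact hFC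
  have hs1 : 1 ≤ Real.sqrt F := Real.one_le_sqrt.2 (by exact_mod_cast (by omega : 1 ≤ F))
  have h6 : C * Real.sqrt F + 500 ≤ F / 64 := by
    have e : (F : ℝ) = Real.sqrt F * Real.sqrt F := (Real.mul_self_sqrt hF0.le).symm
    have h7 : C * Real.sqrt F + 500 ≤ (|C| + 500) * Real.sqrt F := by
      have := le_abs_self C
      nlinarith
    have h8 : (|C| + 500) * Real.sqrt F ≤ Real.sqrt F / 64 * Real.sqrt F :=
      mul_le_mul_of_nonneg_right h5 (by linarith)
    calc C * Real.sqrt F + 500 ≤ Real.sqrt F / 64 * Real.sqrt F := h7.trans h8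
      _ = (Real.sqrt F * Real.sqrt F) / 64 := by ring
      _ = F / 64 := by rw [← e]
  have h9 := h2.trans_le h3
  linarith

section cls
variable (p : ℕ) [hp' : Fact p.Prime]

/-- a nontrivial cube root of unity -/
lemma exists_omega (h3 : p % 3 = 1) : ∃ ω : ZMod p, ω ^ 3 = 1 ∧ ω ≠ 1 ∧ ω ≠ 0 := by
  have hp : p.Prime := hp'.1
  have hcard : Fintype.card (ZMod p)ˣ = p - 1 := by
    rw [ZMod.card_units_eq_totient, Nat.totient_prime hp]
  have hdvd : 3 ∣ Fintype.card (ZMod p)ˣ := by rw [hcard]; omega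
  haveI : Fact (Nat.Prime 3) := ⟨Nat.prime_three⟩
  obtain ⟨ω, hω⟩ := exists_prime_orderOf_dvd_card 3 hdvd
  have hω3 : ω ^ 3 = 1 := by rw [← hω]; exact pow_orderOf_eq_one ω
  have hω1 : ω ≠ 1 := by
    rintro rfl
    rw [orderOf_one] at hω
    omega
  refine ⟨(ω : ZMod p), ?_, ?_, ω.ne_zero⟩
  · have := congrArg Units.val hω3
    simpa using this
  · intro h
    apply hω1
    exact Units.ext h

open Polynomial in
/-- the number of points on `N + s x ^ 2 = z ^ 3` -/
lemma points_le (h12 : p % 12 = 7) (N s : ZMod p) (hs : s ^ 2 = 1) :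
    (((univ : Finset (ZMod p × ZMod p)).filter (fun t => N + s * t.1 ^ 2 = t.2 ^ 3)).card : ℝ) ≤
      p + 2 * Real.sqrt p := by
  classical
  have hp : p.Prime := hp'.1
  have hchar : ringChar (ZMod p) ≠ 2 := by
    rw [ZMod.ringChar_zmod_n]
    omega
  have hs0 : s ≠ 0 := by
    rintro rfl
    simp at hs
  set f : (ZMod p)[X] := C s * (X ^ 3 - C N) with hf
  have hdeg : f.natDegree = 3 := by
    rw [hf, natDegree_C_mul hs0, natDegree_X_pow_sub_C]
  have hns : ∀ (c : ZMod p) (h : (ZMod p)[X]), f ≠ C c * h ^ 2 := by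
    intro c h hfh
    have hc : c ≠ 0 := by
      rintro rfl
      rw [C_0, zero_mul] at hfh
      rw [hfh, natDegree_zero] at hdeg
      omega
    have : f.natDegree = 2 * h.natDegree := by
      rw [hfh, natDegree_C_mul hc, natDegree_pow]
    omega
  have hW := Pool.Agent.H341R2.Sharp.weil_sharp hchar f (by omega) hns
  rw [hdeg, ZMod.card] at hW
  have hcount : (((univ : Finset (ZMod p × ZMod p)).filter
      (fun t => N + s * t.1 ^ 2 = t.2 ^ 3)).card : ℤ) =
      ∑ z : ZMod p, (quadraticChar (ZMod p) (f.eval z) + 1) := by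
    have e1 : ((univ : Finset (ZMod p × ZMod p)).filter (fun t => N + s * t.1 ^ 2 = t.2 ^ 3)).card =
        ∑ z : ZMod p, ((univ : Finset (ZMod p)).filter (fun x => x ^ 2 = f.eval z)).card := by
      rw [card_eq_sum_card_fiberwise (f := fun t : ZMod p × ZMod p => t.2) (t := univ)
        (fun _ _ => mem_coe.2 (mem_univ _))]
      apply sum_congr rfl
      intro z _
      apply card_bij (fun (t : ZMod p × ZMod p) _ => t.1)
      · intro t ht
        simp only [mem_filter, mem_univ, true_and] at ht ⊢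
        obtain ⟨h1, h2⟩ := ht
        rw [hf, eval_mul, eval_C, eval_sub, eval_pow, eval_X, eval_C, ← h2, ← h1]
        linear_combination (-t.1 ^ 2) * hs
      · intro t ht t' ht' h
        simp only [mem_filter, mem_univ, true_and] at ht ht'
        exact Prod.ext h (ht.2.trans ht'.2.symm)
      · intro x hx
        simp only [mem_filter, mem_univ, true_and] at hx
        refine ⟨(x, z), ?_, rfl⟩
        simp only [mem_filter, mem_univ, true_and, and_true]
        rw [hf, eval_mul, eval_C, eval_sub, eval_pow, eval_X, eval_C] at hx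
        rw [hx]
        linear_combination (z ^ 3 - N) * hs
    rw [e1]
    push_cast
    apply sum_congr rfl
    intro z _
    rw [← quadraticChar_card_sqrts hchar (f.eval z)]
    congr 2
    ext x
    simp
  have hcount' : (((univ : Finset (ZMod p × ZMod p)).filter
      (fun t => N + s * t.1 ^ 2 = t.2 ^ 3)).card : ℝ) =
      ∑ z : ZMod p, (quadraticChar (ZMod p) (f.eval z) : ℝ) + p := by
    have h1 : (((((univ : Finset (ZMod p × ZMod p)).filter
      (fun t => N + s * t.1 ^ 2 = t.2 ^ 3)).card : ℤ)) : ℝ) =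
      ((∑ z : ZMod p, (quadraticChar (ZMod p) (f.eval z) + 1) : ℤ) : ℝ) := by rw [hcount]
    push_cast at h1
    rw [h1, sum_add_distrib]
    congr 1
    simp [ZMod.card]
  rw [hcount']
  have := (abs_le.1 hW).2
  norm_num at this ⊢
  linarith

lemma class_sq (h12 : p % 12 = 7) (h100 : 100 < p) (N s : ZMod p) (hs : s ^ 2 = 1) :
    (univ.filter (fun x : ZMod p => ∃ z : ZMod p, N + s * x ^ 2 = z ^ 3)).card ≤ p / 2 + 1 := by
  classical
  have hp : p.Prime := hp'.1
  obtain ⟨ω, hω3, hω1, hω0⟩ := exists_omega p (by omega)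
  have hs0 : s ≠ 0 := by
    rintro rfl
    simp at hs
  set S := univ.filter (fun x : ZMod p => ∃ z : ZMod p, N + s * x ^ 2 = z ^ 3) with hS
  set P := (univ : Finset (ZMod p × ZMod p)).filter (fun t => N + s * t.1 ^ 2 = t.2 ^ 3) with hP
  set P0 := P.filter (fun t => t.2 ≠ 0) with hP0
  set Z := univ.filter (fun x : ZMod p => N + s * x ^ 2 = 0) with hZ
  have hZc : Z.card ≤ 2 := by
    have h1 : ∀ x ∈ Z, ∀ y ∈ Z, x = y ∨ x = -y := by
      intro x hx y hy
      rw [hZ, mem_filter] at hx hy
      have h2 : s * (x ^ 2 - y ^ 2) = 0 := by linear_combination hx.2 - hy.2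
      have h3 : x ^ 2 - y ^ 2 = 0 := (mul_eq_zero.1 h2).resolve_left hs0
      have h4 : (x - y) * (x + y) = 0 := by linear_combination h3
      rcases mul_eq_zero.1 h4 with h | h
      · left; exact sub_eq_zero.1 h
      · right; exact eq_neg_of_add_eq_zero_left h
    rcases Z.eq_empty_or_nonempty with he | ⟨y, hy⟩
    · rw [he]; simp
    · calc Z.card ≤ ({y, -y} : Finset (ZMod p)).card := by
            apply card_le_card
            intro x hx
            rw [mem_insert, mem_singleton]
            exact h1 x hx y hy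
        _ ≤ 2 := card_le_two
  have hcube : ∀ z : ZMod p, z ≠ 0 → z ≠ ω * z ∧ z ≠ ω ^ 2 * z ∧ ω * z ≠ ω ^ 2 * z := by
    intro z hz
    refine ⟨?_, ?_, ?_⟩
    · intro h
      apply hω1
      have : (1 : ZMod p) * z = ω * z := by rw [one_mul]; exact h
      exact (mul_right_cancel₀ hz this).symm
    · intro h
      apply hω1
      have h2 : (1 : ZMod p) * z = ω ^ 2 * z := by rw [one_mul]; exact h
      have h3 : ω ^ 2 = 1 := (mul_right_cancel₀ hz h2).symm
      calc ω = ω ^ 3 * (ω ^ 2)⁻¹ := by field_simp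
        _ = 1 := by rw [hω3, h3]; simp
    · intro h
      apply hω1
      have h2 : ω = ω ^ 2 := mul_right_cancel₀ hz h
      have h3 : ω * 1 = ω * ω := by rw [mul_one, ← sq]; exact h2
      exact (mul_left_cancel₀ hω0 h3).symm
  have h3 := Finset.mul_card_image_le_card (s := P0) (f := fun t : ZMod p × ZMod p => t.1) (n := 3) (by
    intro c hc
    obtain ⟨t, ht, rfl⟩ := mem_image.1 hc
    rw [hP0, mem_filter, hP, mem_filter] at ht
    obtain ⟨⟨_, h1⟩, h2⟩ := ht
    obtain ⟨k1, k2, k3⟩ := hcube t.2 h2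
    have hsub : ({(t.1, t.2), (t.1, ω * t.2), (t.1, ω ^ 2 * t.2)} : Finset (ZMod p × ZMod p)) ⊆
        P0.filter (fun y : ZMod p × ZMod p => y.1 = t.1) := by
      intro y hy
      simp only [mem_insert, mem_singleton] at hy
      rw [mem_filter, hP0, mem_filter, hP, mem_filter]
      rcases hy with rfl | rfl | rfl
      · exact ⟨⟨⟨mem_univ _, h1⟩, h2⟩, rfl⟩
      · refine ⟨⟨⟨mem_univ _, ?_⟩, mul_ne_zero hω0 h2⟩, rfl⟩
        simp only
        rw [h1, mul_pow, hω3, one_mul]
      · refine ⟨⟨⟨mem_univ _, ?_⟩, mul_ne_zero (pow_ne_zero 2 hω0) h2⟩, rfl⟩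
        simp only
        rw [h1, mul_pow, ← pow_mul, mul_comm 2 3, pow_mul, hω3, one_pow, one_mul]
    have hc3 : ({(t.1, t.2), (t.1, ω * t.2), (t.1, ω ^ 2 * t.2)} : Finset (ZMod p × ZMod p)).card = 3 := by
      rw [card_eq_three]
      refine ⟨_, _, _, ?_, ?_, ?_, rfl⟩
      · simp only [ne_eq, Prod.mk.injEq, true_and]; exact k1
      · simp only [ne_eq, Prod.mk.injEq, true_and]; exact k2
      · simp only [ne_eq, Prod.mk.injEq, true_and]; exact k3
    rw [← hc3]
    exact card_le_card hsub)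
  have h4 : S.card ≤ (P0.image (fun t : ZMod p × ZMod p => t.1)).card + Z.card := by
    refine (card_le_card ?_).trans (card_union_le _ _)
    intro x hx
    rw [hS, mem_filter] at hx
    obtain ⟨_, z, hz⟩ := hx
    rw [mem_union]
    by_cases hz0 : z = 0
    · right
      rw [hZ, mem_filter]
      refine ⟨mem_univ _, ?_⟩
      rw [hz, hz0]; simp
    · left
      rw [mem_image]
      refine ⟨(x, z), ?_, rfl⟩
      rw [hP0, mem_filter, hP, mem_filter]
      exact ⟨⟨mem_univ _, hz⟩, hz0⟩
  have h5 : P0.card ≤ P.card := card_filter_le _ _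
  have h6 := points_le p h12 N s hs
  rw [← hP] at h6
  have h7 : 3 * (S.card : ℝ) ≤ p + 2 * Real.sqrt p + 6 := by
    have h8 : 3 * S.card ≤ P.card + 6 := by omega
    have h9 : 3 * (S.card : ℝ) ≤ P.card + 6 := by exact_mod_cast h8
    linarith
  by_contra hcon
  push Not at hcon
  have h8 : p + 3 ≤ 2 * S.card := by
    have : p % 2 = 1 := by omega
    omega
  have h9 : (p : ℝ) + 3 ≤ 2 * S.card := by exact_mod_cast h8
  have h10 : (10 : ℝ) ≤ Real.sqrt p := by
    apply Real.le_sqrt_of_sq_le
    have : (100 : ℝ) ≤ p := by exact_mod_cast h100.le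
    linarith
  have h11 : (p : ℝ) = Real.sqrt p * Real.sqrt p := (Real.mul_self_sqrt (Nat.cast_nonneg _)).symm
  nlinarith

lemma class_count (h12 : p % 12 = 7) (h100 : 100 < p) (N s : ZMod p) (hs : s ^ 2 = 1) :
    (univ.filter (fun y : ZMod p => ∃ z : ZMod p, N + s * y ^ 4 = z ^ 3)).card ≤ p / 2 + 1 := by
  classical
  refine le_trans ?_ (class_sq p h12 h100 N s hs)
  have hm1 : ¬ IsSquare (-1 : ZMod p) := by
    rw [ZMod.exists_sq_eq_neg_one_iff]
    omega
  have hchar : ringChar (ZMod p) ≠ 2 := by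
    rw [ZMod.ringChar_zmod_n]
    omega
  apply card_le_card_of_injOn (fun y : ZMod p => if IsSquare y then y ^ 2 else -y ^ 2)
  · intro y hy
    simp only [coe_filter, mem_univ, true_and, Set.mem_ofPred_eq] at hy ⊢
    obtain ⟨z, hz⟩ := hy
    refine ⟨z, ?_⟩
    rw [← hz]
    split_ifs <;> ring
  · have key : ∀ a b : ZMod p, a ^ 2 = -b ^ 2 → b = 0 := by
      intro a b h
      by_contra hb
      apply hm1
      refine ⟨a / b, ?_⟩
      field_simp
      linear_combination -h
    intro y _ y' _ h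
    simp only at h
    by_cases h1 : IsSquare y <;> by_cases h2 : IsSquare y'
    · rw [if_pos h1, if_pos h2] at h
      rcases sq_eq_sq_iff_eq_or_eq_neg.1 h with h | h
      · exact h
      · obtain ⟨a, ha⟩ := h1
        obtain ⟨b, hb⟩ := h2
        have h3 : a ^ 2 = -b ^ 2 := by rw [sq a, sq b, ← ha, ← hb]; exact h
        have h4 := key a b h3
        rw [h4] at hb
        rw [h, hb]; simp
    · rw [if_pos h1, if_neg h2] at h
      have := key y y' h
      exact absurd (this ▸ IsSquare.zero) h2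
    · rw [if_neg h1, if_pos h2] at h
      have := key y' y h.symm
      exact absurd (this ▸ IsSquare.zero) h1
    · rw [if_neg h1, if_neg h2, neg_inj] at h
      rcases sq_eq_sq_iff_eq_or_eq_neg.1 h with h | h
      · exact h
      · exfalso
        apply h1
        have hy' : y' ≠ 0 := fun h0 => h2 (h0 ▸ IsSquare.zero)
        have k1 : quadraticChar (ZMod p) y' = -1 := quadraticChar_neg_one_iff_not_isSquare.2 h2
        have k2 : quadraticChar (ZMod p) (-1) = -1 := quadraticChar_neg_one_iff_not_isSquare.2 hm1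
        have k3 : quadraticChar (ZMod p) y = 1 := by
          rw [h, neg_eq_neg_one_mul, map_mul, k1, k2]
          norm_num
        rw [h] at k3 ⊢
        exact (quadraticChar_one_iff_isSquare (neg_ne_zero.2 hy')).1 k3

end cls

end Pool.Agent.H406R3.FC4
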