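import Mathlib
import Pool.Agent.H57R3.FC.C
import Pool.Agent.H406R3.FC4.A

set_option autoImplicit false

open Finset Filter Topology
open scoped Classical

namespace Pool.Agent.H406R3.FC4

open Pool.Agent.H57R3.FC

/-- few `y ≤ V` such that `N ± y ^ 4` is a cube -/
theorem value_sieve4 {δ : ℝ} (hδ : 0 < δ) :
    ∃ C : ℝ, 0 < C ∧ ∀ V : ℕ, 1 ≤ V →
    ∀ N s : ℤ, (s = 1 ∨ s = -1) → ∀ A : Finset ℕ, (∀ y ∈ A, 1 ≤ y ∧ y ≤ V ∧ ∃ z : ℤ, N + s * (y : ℤ) ^ 4 = z ^ 3) →
      (A.card : ℝ) ≤ C * (V : ℝ) ^ (1 / 2 + δ) := by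
  obtain ⟨F0, hF0, hF⟩ := prime_count12
  refine ⟨(F0 + 1 : ℝ) ^ 2 + 1536 / δ, by positivity, fun V hV N s hs A hA => ?_⟩
  have hV1 : (1 : ℝ) ≤ V := by exact_mod_cast hV
  have hV0 : (0 : ℝ) < V := by linarith
  have hVp : (1 : ℝ) ≤ (V : ℝ) ^ (1 / 2 + δ) := Real.one_le_rpow hV1 (by linarith)
  have hAV : A ⊆ Icc 1 V := fun y hy => mem_Icc.2 ⟨(hA y hy).1, (hA y hy).2.1⟩
  set F := Nat.sqrt V with hFdef
  by_cases hsmall : F < F0
  · have h1 : A.card ≤ V := by
      have := card_le_card hAV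
      simpa using this
    have h2 : V < (F + 1) ^ 2 := by
      have := Nat.lt_succ_sqrt V
      rw [Nat.succ_eq_add_one, ← hFdef] at this
      nlinarith
    have h3 : A.card ≤ (F0 + 1) ^ 2 := by
      have : (F + 1) ^ 2 ≤ (F0 + 1) ^ 2 := Nat.pow_le_pow_left (by omega) 2
      omega
    have h4 : (A.card : ℝ) ≤ (F0 + 1 : ℝ) ^ 2 := by exact_mod_cast h3
    have h5 : 0 < 1536 / δ := by positivity
    nlinarith [sq_nonneg ((F0 : ℝ) + 1)]
  push Not at hsmall
  have hF1 := hF F hsmall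
  have hFge : 2 ≤ F := by omega
  have hFr : (2 : ℝ) ≤ F := by exact_mod_cast hFge
  have hlogF : 0 < Real.log F := Real.log_pos (by linarith)
  have hFV : (F : ℝ) ^ 2 ≤ V := by
    have := Nat.sqrt_le' V
    exact_mod_cast this
  have hsieve := sieve V F A hAV (PG F) (by
    intro p hp
    unfold PG at hp
    simp only [mem_filter, mem_Icc] at hp
    exact ⟨hp.2.1, by omega, hp.1.2⟩) (by
    intro p hp
    unfold PG at hp
    simp only [mem_filter, mem_Icc] at hp
    obtain ⟨⟨_, _⟩, hpr, h12, hp100⟩ := hp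
    haveI : NeZero p := ⟨hpr.ne_zero⟩
    haveI : Fact p.Prime := ⟨hpr⟩
    refine ⟨univ.filter (fun y : ZMod p => ∃ z : ZMod p, (N : ZMod p) + (s : ZMod p) * y ^ 4 = z ^ 3), ?_, ?_⟩
    · have hs2 : (s : ZMod p) ^ 2 = 1 := by
        rcases hs with h | h <;> subst h <;> simp
      convert class_count p h12 hp100 (N : ZMod p) (s : ZMod p) hs2
    · intro y hy
      obtain ⟨_, _, z, hz⟩ := hA y hy
      simp only [mem_filter, mem_univ, true_and]
      refine ⟨(z : ZMod p), ?_⟩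
      have := congrArg (fun t : ℤ => (t : ZMod p)) hz
      push_cast at this
      exact this)
  have h1 : (A.card : ℝ) * (PG F).card ≤ 24 * V := by linarith
  have h2 : (A.card : ℝ) * (F / 32) ≤ 24 * V * Real.log F := by
    calc (A.card : ℝ) * (F / 32) ≤ A.card * ((PG F).card * Real.log F) :=
          mul_le_mul_of_nonneg_left hF1 (Nat.cast_nonneg _)
      _ = A.card * (PG F).card * Real.log F := by ring
      _ ≤ 24 * V * Real.log F := mul_le_mul_of_nonneg_right h1 hlogF.le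
  have hsq : Real.sqrt V ≤ 2 * F := by
    have h3 : V < (F + 1) ^ 2 := by
      have := Nat.lt_succ_sqrt V
      rw [Nat.succ_eq_add_one, ← hFdef] at this
      nlinarith
    rw [Real.sqrt_le_left (by positivity)]
    have h4 : (V : ℝ) ≤ ((F : ℝ) + 1) ^ 2 := by exact_mod_cast h3.le
    nlinarith
  have hlog : Real.log F ≤ (V : ℝ) ^ δ / δ := by
    have h4 : Real.log F ≤ Real.log V := by
      apply Real.log_le_log (by linarith)
      nlinarith
    exact h4.trans (Real.log_le_rpow_div hV0.le hδ)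
  have hsqpos : 0 < Real.sqrt V := Real.sqrt_pos.2 hV0
  have hVV : (V : ℝ) = Real.sqrt V * Real.sqrt V := (Real.mul_self_sqrt hV0.le).symm
  have h5 : (A.card : ℝ) * Real.sqrt V ≤ 1536 * V * Real.log F := by
    calc (A.card : ℝ) * Real.sqrt V ≤ A.card * (2 * F) := mul_le_mul_of_nonneg_left hsq (Nat.cast_nonneg _)
      _ = 64 * (A.card * (F / 32)) := by ring
      _ ≤ 64 * (24 * V * Real.log F) := mul_le_mul_of_nonneg_left h2 (by norm_num)
      _ = _ := by ring
  have h6 : (A.card : ℝ) ≤ 1536 * Real.sqrt V * Real.log F := by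
    have : (A.card : ℝ) * Real.sqrt V ≤ (1536 * Real.sqrt V * Real.log F) * Real.sqrt V := by
      calc (A.card : ℝ) * Real.sqrt V ≤ 1536 * V * Real.log F := h5
        _ = 1536 * (Real.sqrt V * Real.sqrt V) * Real.log F := by rw [← hVV]
        _ = _ := by ring
    exact le_of_mul_le_mul_right this hsqpos
  calc (A.card : ℝ) ≤ 1536 * Real.sqrt V * Real.log F := h6
    _ ≤ 1536 * Real.sqrt V * ((V : ℝ) ^ δ / δ) := mul_le_mul_of_nonneg_left hlog (by positivity)
    _ = 1536 / δ * (V : ℝ) ^ (1 / 2 + δ) := by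
        rw [Real.rpow_add hV0, Real.sqrt_eq_rpow]
        ring
    _ ≤ _ := by
        apply mul_le_mul_of_nonneg_right _ (by linarith)
        have : 0 ≤ (F0 + 1 : ℝ) ^ 2 := by positivity
        linarith

/-- the sieve bound -/
lemma sieve_count4 {δ : ℝ} (hδ : 0 < δ) :
    ∃ C : ℝ, 0 < C ∧ ∀ X : ℕ, 1 ≤ X → ∀ m k : ℕ, 3 ∣ m → 1 ≤ k →
      ((T m 4 k X).card : ℝ) ≤ C * ((X : ℝ) ^ (1 / (2 * (4 : ℕ) : ℝ) + δ) * (X : ℝ) ^ (1 / (k : ℝ))) := by
  obtain ⟨n, hn4⟩ : ∃ n : ℕ, n = 4 := ⟨4, rfl⟩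
  obtain ⟨C, hC, h⟩ := value_sieve4 hδ
  refine ⟨3 * C, by positivity, fun X hX m k hqm hk => ?_⟩
  rw [← hn4] at h ⊢
  have hn : 1 ≤ n := by omega
  have hn0 : n ≠ 0 := by omega
  have hX1 : (1 : ℝ) ≤ X := by exact_mod_cast hX
  have hX0 : (0 : ℝ) < X := by linarith
  set V := ⌊(X : ℝ) ^ (1 / (n : ℝ))⌋₊ with hV
  have hV1 : 1 ≤ V := by
    apply Nat.le_floor
    have : (1 : ℝ) ≤ (X : ℝ) ^ (1 / (n : ℝ)) := Real.one_le_rpow hX1 (by positivity)
    simpa using this
  have hVX : (V : ℝ) ^ (1 / 2 + δ) ≤ (X : ℝ) ^ (1 / (2 * n : ℝ) + δ) := by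
    have h1 : (V : ℝ) ≤ (X : ℝ) ^ (1 / (n : ℝ)) := Nat.floor_le (by positivity)
    calc (V : ℝ) ^ (1 / 2 + δ) ≤ ((X : ℝ) ^ (1 / (n : ℝ))) ^ (1 / 2 + δ) :=
          Real.rpow_le_rpow (Nat.cast_nonneg _) h1 (by linarith)
      _ = (X : ℝ) ^ (1 / (n : ℝ) * (1 / 2 + δ)) := by rw [← Real.rpow_mul hX0.le]
      _ ≤ (X : ℝ) ^ (1 / (2 * n : ℝ) + δ) := by
          apply Real.rpow_le_rpow_of_exponent_le hX1
          have hn' : (1 : ℝ) ≤ n := by exact_mod_cast hn
          have h2 : 1 / (n : ℝ) ≤ 1 := by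
            rw [div_le_one (by linarith)]; exact hn'
          have h3 : 1 / (n : ℝ) * (1 / 2 + δ) = 1 / (2 * n : ℝ) + 1 / (n : ℝ) * δ := by
            field_simp
          rw [h3]
          have : 1 / (n : ℝ) * δ ≤ 1 * δ := mul_le_mul_of_nonneg_right h2 hδ.le
          linarith
  have hfib := fib m n k X hk (G := C * (X : ℝ) ^ (1 / (2 * n : ℝ) + δ)) (by positivity) (by
    intro c w
    -- the roots of the second coordinate
    have hroot : ∀ t : ℕ × ℕ × ℕ, ∃ y : ℕ, t ∈ T m n k X → 0 < y ∧ t.2.1 = y ^ n := by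
      intro t
      by_cases ht : t ∈ T m n k X
      · obtain ⟨y, hy⟩ := (mem_T.1 ht).2.2.1
        exact ⟨y, fun _ => hy⟩
      · exact ⟨0, fun h => absurd h ht⟩
    choose g hg using hroot
    set A := ((T m n k X).filter (fun t => (ty t, t.2.2) = (c, w))).image g with hA
    have hcard : ((T m n k X).filter (fun t => (ty t, t.2.2) = (c, w))).card = A.card := by
      rw [hA, card_image_of_injOn]
      intro t ht t' ht' hEq
      rw [mem_coe, mem_filter] at ht ht'
      obtain ⟨h1, h2⟩ := ht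
      obtain ⟨h1', h2'⟩ := ht'
      simp only [Prod.mk.injEq] at h2 h2'
      apply ty_det (mem_T.1 h1).2.2.2.2 (mem_T.1 h1').2.2.2.2 (h2.1.trans h2'.1.symm) _ (h2.2.trans h2'.2.symm)
      rw [(hg t h1).2, (hg t' h1').2]
      show g t ^ n = g t' ^ n
      rw [hEq]
    rw [hcard]
    have key : ∃ N s : ℤ, (s = 1 ∨ s = -1) ∧ ∀ t ∈ (T m n k X).filter (fun t => (ty t, t.2.2) = (c, w)),
        (t.1 : ℤ) = N + s * (t.2.1 : ℤ) := by
      by_cases hc0 : c = 0
      · refine ⟨w, -1, Or.inr rfl, ?_⟩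
        intro t ht
        obtain ⟨h1, h2⟩ := mem_filter.1 ht
        simp only [Prod.mk.injEq] at h2
        obtain ⟨h2, h3⟩ := h2
        rw [hc0] at h2
        unfold ty at h2
        by_cases e1 : t.1 + t.2.1 = t.2.2
        · omega
        · rw [if_neg e1] at h2
          split_ifs at h2 <;> exact absurd h2 (by decide)
      · by_cases hc1 : c = 1
        · refine ⟨-w, 1, Or.inl rfl, ?_⟩
          intro t ht
          obtain ⟨h1, h2⟩ := mem_filter.1 ht
          simp only [Prod.mk.injEq] at h2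
          obtain ⟨h2, h3⟩ := h2
          rw [hc1] at h2
          unfold ty at h2
          by_cases e1 : t.1 + t.2.1 = t.2.2
          · rw [if_pos e1] at h2
            exact absurd h2 (by decide)
          · rw [if_neg e1] at h2
            by_cases e2 : t.1 + t.2.2 = t.2.1
            · omega
            · rw [if_neg e2] at h2
              exact absurd h2 (by decide)
        · refine ⟨w, 1, Or.inl rfl, ?_⟩
          intro t ht
          obtain ⟨h1, h2⟩ := mem_filter.1 ht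
          simp only [Prod.mk.injEq] at h2
          obtain ⟨h2, h3⟩ := h2
          have hr := (mem_T.1 h1).2.2.2.2
          unfold ty at h2
          unfold Pool.Agent.H57R3.FC.Rel at hr
          by_cases e1 : t.1 + t.2.1 = t.2.2
          · rw [if_pos e1] at h2
            exact absurd h2.symm hc0
          · rw [if_neg e1] at h2
            by_cases e2 : t.1 + t.2.2 = t.2.1
            · rw [if_pos e2] at h2
              exact absurd h2.symm hc1
            · omega
    obtain ⟨N, s, hs, hkey⟩ := key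
    have h5 := h V hV1 N s hs A (by
      intro y hy
      obtain ⟨t, ht, rfl⟩ := mem_image.1 hy
      have ht1 := (mem_filter.1 ht).1
      obtain ⟨g1, g2⟩ := hg t ht1
      obtain ⟨⟨h1, h2, h3⟩, p1, p2, p3, hr⟩ := mem_T.1 ht1
      refine ⟨g1, ?_, ?_⟩
      · apply root_le hn
        rw [← g2]
        exact h2.2
      · obtain ⟨x, hx, hx2⟩ := p1
        obtain ⟨m', rfl⟩ := hqm
        refine ⟨(x : ℤ) ^ m', ?_⟩
        have h6 := hkey t ht
        rw [g2, hx2] at h6
        push_cast at h6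
        rw [← h6, ← pow_mul, mul_comm m' 3])
    exact h5.trans (mul_le_mul_of_nonneg_left hVX hC.le))
  refine hfib.trans (le_of_eq ?_)
  ring

end Pool.Agent.H406R3.FC4
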